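import Pool.Agent.P.MP_ab6b4f_lc.Cover

set_option autoImplicit false

open Pool.Agent.P.MP_ab6b4f_lc

universe u

theorem Pool.Agent.Results.MP_ab6b4f_lc.QuasiMinimalCover.result :
    ∀ (Y : Type u) [TopologicalSpace Y] [T25Space Y] (U : ℕ → Set Y),
      TopologicalSpace.IsTopologicalBasis (Set.range U) →
      ∃ X A B P N : Set ℕ, CEIn X P ∧ CEIn X N ∧ CEIn X (A ∪ B)ᶜ ∧
        Disjoint A B ∧ Disjoint A P ∧ Disjoint A N ∧ Disjoint B P ∧ Disjoint B N ∧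
        Disjoint P N ∧
        EReducible (join (join X Xᶜ) (A ∪ B ∪ P ∪ N))
          (join (join (join X Xᶜ) (A ∪ P)) (B ∪ N)) ∧
        ¬ EReducible (join (join (join X Xᶜ) (A ∪ P)) (B ∪ N))
          (join (join X Xᶜ) (A ∪ B ∪ P ∪ N)) ∧
        ∀ y : Y, EReducible {e | y ∈ U e} (join (join (join X Xᶜ) (A ∪ P)) (B ∪ N)) →
          EReducible {e | y ∈ U e} (join (join X Xᶜ) (A ∪ B ∪ P ∪ N)) :=
  fun _ _ _ U hU => Pool.Agent.P.MP_ab6b4f_lc.main_cover U hU
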